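import Pool.Agent.H721.Q3.Num

namespace Pool.Agent.H721.Q3

open Matrix

abbrev Mat := Matrix (Fin 3) (Fin 3) ℚ

def MD (e : ℕ) (M : Mat) : Prop := ∀ i j, D e (M i j)
def VD (e : ℕ) (v : Fin 3 → ℚ) : Prop := ∀ i, D e (v i)

theorem MD.add {e : ℕ} {M N : Mat} (h : MD e M) (h' : MD e N) : MD e (M + N) := fun i j => (h i j).add (h' i j)
theorem MD.mono {e f : ℕ} {M : Mat} (hef : e ≤ f) (h : MD f M) : MD e M := fun i j => (h i j).mono hef
theorem MD.mul {e f : ℕ} {M N : Mat} (h : MD e M) (h' : MD f N) : MD (e + f) (M * N) := fun i j => by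
  rw [mul_apply, Fin.sum_univ_three]
  exact (((h i 0).mul (h' 0 j)).add ((h i 1).mul (h' 1 j))).add ((h i 2).mul (h' 2 j))
theorem MD.mulVec {e f : ℕ} {M : Mat} {v : Fin 3 → ℚ} (h : MD e M) (h' : VD f v) : VD (e + f) (M *ᵥ v) := fun i => by
  simp only [Matrix.mulVec, dotProduct, Fin.sum_univ_three]
  exact (((h i 0).mul (h' 0)).add ((h i 1).mul (h' 1))).add ((h i 2).mul (h' 2))

def Kz (s : ℚ) : Mat := !![0, -s, 0; s, 0, 0; 0, 0, 0]
def Kx (s : ℚ) : Mat := !![0, 0, 0; 0, 0, -s; 0, s, 0]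
def ez : Fin 3 → ℚ := ![0, 0, 1]
def ex : Fin 3 → ℚ := ![1, 0, 0]

structure Good (E : ℕ) (s : ℚ) (L : Mat) (t : Fin 3 → ℚ) (a b : ℤ) : Prop where
  tr : VD E (t - ((a : ℚ) • ez + (b : ℚ) • ex))
  lin : MD (2 * E) (L - 1 - ((a : ℚ) • Kz s + (b : ℚ) • Kx s))
  adj : adjugate L = Lᵀ
  orth : Lᵀ * L = 1

theorem MD_K {E : ℕ} {s : ℚ} (hs : D E s) (a b : ℤ) : MD E ((a : ℚ) • Kz s + (b : ℚ) • Kx s) := by
  have ha : D E ((a : ℚ) * s) := (D.int a).mul0 hs
  have hb : D E ((b : ℚ) * s) := (D.int b).mul0 hs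
  intro i j
  fin_cases i <;> fin_cases j <;> simp [Kz, Kx] <;>
    first | exact D.zero _ | exact ha | exact hb | exact ha.neg | exact hb.neg

theorem VD_e (a b : ℤ) : VD 0 ((a : ℚ) • ez + (b : ℚ) • ex) := by
  intro i
  fin_cases i <;> simp [ez, ex] <;> first | exact D.zero _ | exact D.int _

theorem Good.t0 {E : ℕ} {s : ℚ} {L : Mat} {t : Fin 3 → ℚ} {a b : ℤ} (h : Good E s L t a b) : VD 0 t := by
  intro i
  have := ((h.tr i).mono (Nat.zero_le E)).add (VD_e a b i)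
  simpa using this

theorem Good.l1 {E : ℕ} {s : ℚ} (hs : D E s) {L : Mat} {t : Fin 3 → ℚ} {a b : ℤ} (h : Good E s L t a b) :
    MD E (L - 1) := by
  intro i j
  have := ((h.lin i j).mono (by omega : E ≤ 2 * E)).add (MD_K hs a b i j)
  simpa using this

theorem Good.mul {E : ℕ} {s : ℚ} (hs : D E s) {L L' : Mat} {t t' : Fin 3 → ℚ} {a b a' b' : ℤ}
    (h : Good E s L t a b) (h' : Good E s L' t' a' b') :
    Good E s (L * L') (L *ᵥ t' + t) (a + a') (b + b') where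
  tr := by
    have h1 := (h.l1 hs).mulVec h'.t0
    have h2 : L *ᵥ t' + t - (((a + a' : ℤ) : ℚ) • ez + ((b + b' : ℤ) : ℚ) • ex) =
        (L - 1) *ᵥ t' + (t' - ((a' : ℚ) • ez + (b' : ℚ) • ex)) + (t - ((a : ℚ) • ez + (b : ℚ) • ex)) := by
      rw [sub_mulVec, one_mulVec]
      push_cast
      rw [add_smul, add_smul]
      abel
    rw [h2]
    intro i
    exact ((h1 i).add (h'.tr i)).add (h.tr i)
  lin := by
    set T := (a : ℚ) • Kz s + (b : ℚ) • Kx s with hT
    set T' := (a' : ℚ) • Kz s + (b' : ℚ) • Kx s with hT'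
    have e : ((a + a' : ℤ) : ℚ) • Kz s + ((b + b' : ℤ) : ℚ) • Kx s = T + T' := by
      rw [hT, hT']; push_cast; rw [add_smul, add_smul]; abel
    rw [e]
    have hTD : MD E T := MD_K hs a b
    have hTD' : MD E T' := MD_K hs a' b'
    have hR : MD (2 * E) (L - 1 - T) := h.lin
    have hR' : MD (2 * E) (L' - 1 - T') := h'.lin
    have id1 : L * L' - 1 - (T + T') = (L' - 1 - T') + (L - 1 - T) + T * T' + T * (L' - 1 - T') +
        (L - 1 - T) * T' + (L - 1 - T) * (L' - 1 - T') := by noncomm_ring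
    rw [id1]
    have c1 : MD (2 * E) (T * T') := (hTD.mul hTD').mono (by omega)
    have c2 : MD (2 * E) (T * (L' - 1 - T')) := (hTD.mul hR').mono (by omega)
    have c3 : MD (2 * E) ((L - 1 - T) * T') := (hR.mul hTD').mono (by omega)
    have c4 : MD (2 * E) ((L - 1 - T) * (L' - 1 - T')) := (hR.mul hR').mono (by omega)
    exact ((((hR'.add hR).add c1).add c2).add c3).add c4
  adj := by rw [adjugate_mul_distrib, h.adj, h'.adj, transpose_mul]
  orth := by
    rw [transpose_mul, Matrix.mul_assoc, ← Matrix.mul_assoc Lᵀ, h.orth, Matrix.one_mul, h'.orth]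

/-- a fixed point forces the pairing of the axis with the translation part to vanish -/
theorem Good.fix {E : ℕ} {s : ℚ} (hs : D E s) {L : Mat} {t : Fin 3 → ℚ} {a b : ℤ} (h : Good E s L t a b)
    (x : Fin 3 → ℚ) (hx : L *ᵥ x + t = x) : D (2 * E) (2 * s * (a ^ 2 + b ^ 2)) := by
  have adj := h.adj
  rw [adjugate_fin_three] at adj
  have h12 := congrFun (congrFun adj 1) 2
  have h21 := congrFun (congrFun adj 2) 1
  have h02 := congrFun (congrFun adj 0) 2
  have h20 := congrFun (congrFun adj 2) 0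
  have h01 := congrFun (congrFun adj 0) 1
  have h10 := congrFun (congrFun adj 1) 0
  simp at h12 h21 h02 h20 h01 h10
  have e0 := congrFun hx 0
  have e1 := congrFun hx 1
  have e2 := congrFun hx 2
  simp only [Pi.add_apply, Matrix.mulVec, dotProduct, Fin.sum_univ_three] at e0 e1 e2
  have pair : (L 2 1 - L 1 2) * t 0 + (L 0 2 - L 2 0) * t 1 + (L 1 0 - L 0 1) * t 2 = 0 := by
    linear_combination (L 2 1 - L 1 2) * e0 + (L 0 2 - L 2 0) * e1 + (L 1 0 - L 0 1) * e2 +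
      x 0 * (-h12 + h21) + x 1 * (h02 - h20) + x 2 * (-h01 + h10)
  have r10 := h.lin 1 0
  have r01 := h.lin 0 1
  have r21 := h.lin 2 1
  have r12 := h.lin 1 2
  have r02 := h.lin 0 2
  have r20 := h.lin 2 0
  have q2 := r10.sub r01
  have q0 := r21.sub r12
  have q1 := r02.sub r20
  have t0 := h.t0
  have p0 := h.tr 0
  have p2 := h.tr 2
  simp [Kz, Kx, ez, ex] at q2 q0 q1 p0 p2
  have k1 := ((D.int b).mul0 hs).mul p0
  have k2 := ((D.int a).mul0 hs).mul p2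
  have k3 := (q0.mul (t0 0)).mono (by omega : 2 * E ≤ 2 * E + 0)
  have k4 := (q1.mul (t0 1)).mono (by omega : 2 * E ≤ 2 * E + 0)
  have k5 := (q2.mul (t0 2)).mono (by omega : 2 * E ≤ 2 * E + 0)
  have k1' := k1.mono (by omega : 2 * E ≤ E + E)
  have k2' := k2.mono (by omega : 2 * E ≤ E + E)
  have tot := ((((k3.add k4).add k5).add (k1'.add k1')).add (k2'.add k2')).neg
  have e : 2 * s * (a ^ 2 + b ^ 2) = 2 * s * (a ^ 2 + b ^ 2) -
    ((L 2 1 - L 1 2) * t 0 + (L 0 2 - L 2 0) * t 1 + (L 1 0 - L 0 1) * t 2) := by rw [pair]; ring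
  rw [e]
  have e' := tot
  ring_nf at e' ⊢
  exact e'

end Pool.Agent.H721.Q3
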