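import Pool.Agent.H721.Q3.Good

namespace Pool.Agent.H721.Q3

open Matrix

def ey : Fin 3 → ℚ := ![0, 1, 0]

structure Good2 (E : ℕ) (s : ℚ) (L : Mat) (t : Fin 3 → ℚ) (a b p q : ℤ) : Prop where
  g : Good E s L t a b
  tr2 : VD (2 * E) (t - ((a : ℚ) • ez + (b : ℚ) • ex + (((p : ℚ) - q) * s) • ey))
  lin2 : ∃ N : Mat, Nᵀ = N ∧ MD (3 * E) (L - 1 - ((a : ℚ) • Kz s + (b : ℚ) • Kx s) - N -
    ((p : ℚ) • (Kz s * Kx s) + (q : ℚ) • (Kx s * Kz s)))
  pq : p + q = a * b

theorem K_vec (s : ℚ) (a b a' b' : ℤ) :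
    ((a : ℚ) • Kz s + (b : ℚ) • Kx s) *ᵥ ((a' : ℚ) • ez + (b' : ℚ) • ex) =
      (((a : ℚ) * b' - b * a') * s) • ey := by
  ext i
  fin_cases i <;> simp [Kz, Kx, ez, ex, ey, Matrix.mulVec, dotProduct, Fin.sum_univ_three]
  ring

theorem Good2.mul {E : ℕ} {s : ℚ} (hs : D E s) {L L' : Mat} {t t' : Fin 3 → ℚ} {a b p q a' b' p' q' : ℤ}
    (h : Good2 E s L t a b p q) (h' : Good2 E s L' t' a' b' p' q') :
    Good2 E s (L * L') (L *ᵥ t' + t) (a + a') (b + b') (p + p' + a * b') (q + q' + b * a') where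
  g := h.g.mul hs h'.g
  tr2 := by
    set T := (a : ℚ) • Kz s + (b : ℚ) • Kx s with hT
    set t0 := (a' : ℚ) • ez + (b' : ℚ) • ex with ht0
    have c1 : VD (2 * E) ((L - 1 - T) *ᵥ t') := by
      have := MD.mulVec h.g.lin h'.g.t0
      intro i; exact (this i).mono (by omega)
    have c2 : VD (2 * E) (T *ᵥ (t' - t0)) := by
      have := MD.mulVec (MD_K hs a b) h'.g.tr
      intro i; exact (this i).mono (by omega)
    have c3 : T *ᵥ t0 = (((a : ℚ) * b' - b * a') * s) • ey := K_vec s a b a' b'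
    have id1 : L *ᵥ t' + t - (((a + a' : ℤ) : ℚ) • ez + ((b + b' : ℤ) : ℚ) • ex +
        ((((p + p' + a * b' : ℤ) : ℚ) - ((q + q' + b * a' : ℤ) : ℚ)) * s) • ey) =
        (L - 1 - T) *ᵥ t' + T *ᵥ (t' - t0) + (t - ((a : ℚ) • ez + (b : ℚ) • ex + (((p : ℚ) - q) * s) • ey)) +
        (t' - ((a' : ℚ) • ez + (b' : ℚ) • ex + (((p' : ℚ) - q') * s) • ey)) := by
      rw [mulVec_sub, c3, sub_mulVec, sub_mulVec, one_mulVec]
      push_cast
      ext i
      simp only [Pi.add_apply, Pi.sub_apply, Pi.smul_apply, smul_eq_mul]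
      ring
    rw [id1]
    intro i
    exact (((c1 i).add (c2 i)).add (h.tr2 i)).add (h'.tr2 i)
  lin2 := by
    obtain ⟨N, hN, hR⟩ := h.lin2
    obtain ⟨N', hN', hR'⟩ := h'.lin2
    have hTD := MD_K hs a b
    have hTD' := MD_K hs a' b'
    have hY := h.g.lin
    have hY' := h'.g.lin
    refine ⟨N + N' + (((a : ℚ) * a') • (Kz s * Kz s) + ((b : ℚ) * b') • (Kx s * Kx s)), ?_, ?_⟩
    · rw [transpose_add, transpose_add, hN, hN', transpose_add, transpose_smul, transpose_smul, transpose_mul,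
        transpose_mul]
      congr 2
      · congr 1
        ext i j; fin_cases i <;> fin_cases j <;> simp [Kz, Matrix.mul_apply, Fin.sum_univ_three]
      · congr 1
        ext i j; fin_cases i <;> fin_cases j <;> simp [Kx, Matrix.mul_apply, Fin.sum_univ_three]
    · have hTT : ((a : ℚ) • Kz s + (b : ℚ) • Kx s) * ((a' : ℚ) • Kz s + (b' : ℚ) • Kx s) =
          (((a : ℚ) * a') • (Kz s * Kz s) + ((b : ℚ) * b') • (Kx s * Kx s)) +
          (((a : ℚ) * b') • (Kz s * Kx s) + ((b : ℚ) * a') • (Kx s * Kz s)) := by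
        simp only [add_mul, mul_add, smul_mul_smul_comm]
        abel
      set T := (a : ℚ) • Kz s + (b : ℚ) • Kx s with hT
      set T' := (a' : ℚ) • Kz s + (b' : ℚ) • Kx s with hT'
      set SS := ((a : ℚ) * a') • (Kz s * Kz s) + ((b : ℚ) * b') • (Kx s * Kx s) with hSS
      set W := (p : ℚ) • (Kz s * Kx s) + (q : ℚ) • (Kx s * Kz s) with hW
      set W' := (p' : ℚ) • (Kz s * Kx s) + (q' : ℚ) • (Kx s * Kz s) with hW'
      set WW := ((a : ℚ) * b') • (Kz s * Kx s) + ((b : ℚ) * a') • (Kx s * Kz s) with hWW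
      have e1 : ((a + a' : ℤ) : ℚ) • Kz s + ((b + b' : ℤ) : ℚ) • Kx s = T + T' := by
        rw [hT, hT']; push_cast; rw [add_smul, add_smul]; abel
      have e2 : ((p + p' + a * b' : ℤ) : ℚ) • (Kz s * Kx s) + ((q + q' + b * a' : ℤ) : ℚ) • (Kx s * Kz s) =
          W + W' + WW := by
        rw [hW, hW', hWW]; push_cast; simp only [add_smul]; abel
      rw [e1, e2]
      have id2 : L * L' - 1 - (T + T') - (N + N' + SS) - (W + W' + WW) =
          (L - 1 - T - N - W) + (L' - 1 - T' - N' - W') + T * (L' - 1 - T') + (L - 1 - T) * T' +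
          (L - 1 - T) * (L' - 1 - T') + (T * T' - (SS + WW)) := by noncomm_ring
      rw [id2, hTT, sub_self, add_zero]
      have c2 : MD (3 * E) (T * (L' - 1 - T')) := (hTD.mul hY').mono (by omega)
      have c3 : MD (3 * E) ((L - 1 - T) * T') := (hY.mul hTD').mono (by omega)
      have c4 : MD (3 * E) ((L - 1 - T) * (L' - 1 - T')) := (hY.mul hY').mono (by omega)
      exact (((hR.add hR').add c2).add c3).add c4
  pq := by have := h.pq; have := h'.pq; linarith [h.pq, h'.pq, show (a + a') * (b + b') = a * b + a' * b' + a * b' + b * a' by ring]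

theorem Good2.fix {E : ℕ} {s : ℚ} (hs : D E s) {L : Mat} {t : Fin 3 → ℚ} {p q : ℤ} (h : Good2 E s L t 0 0 p q)
    (x : Fin 3 → ℚ) (hx : L *ᵥ x + t = x) : D (4 * E) (s ^ 3 * (2 * p) ^ 2) := by
  have hq : (q : ℚ) = -p := by
    have := h.pq
    have h0 : q = -p := by linarith
    rw [h0]; push_cast; ring
  have adj := h.g.adj
  rw [adjugate_fin_three] at adj
  have h12 := congrFun (congrFun adj 1) 2
  have h21 := congrFun (congrFun adj 2) 1
  have h02 := congrFun (congrFun adj 0) 2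
  have h20 := congrFun (congrFun adj 2) 0
  have h01 := congrFun (congrFun adj 0) 1
  have h10 := congrFun (congrFun adj 1) 0
  simp at h12 h21 h02 h20 h01 h10
  have e0 := congrFun hx 0
  have e1 := congrFun hx 1
  have e2 := congrFun hx 2
  simp only [Pi.add_apply, Matrix.mulVec, dotProduct, Fin.sum_univ_three] at e0 e1 e2
  have pair : (L 2 1 - L 1 2) * t 0 + (L 0 2 - L 2 0) * t 1 + (L 1 0 - L 0 1) * t 2 = 0 := by
    linear_combination (L 2 1 - L 1 2) * e0 + (L 0 2 - L 2 0) * e1 + (L 1 0 - L 0 1) * e2 +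
      x 0 * (-h12 + h21) + x 1 * (h02 - h20) + x 2 * (-h01 + h10)
  obtain ⟨N, hN, hR⟩ := h.lin2
  have n10 : N 0 1 = N 1 0 := congrFun (congrFun hN 1) 0
  have n21 : N 1 2 = N 2 1 := congrFun (congrFun hN 2) 1
  have n20 : N 2 0 = N 0 2 := congrFun (congrFun hN 0) 2
  have q2 := (hR 1 0).sub (hR 0 1)
  have q0 := (hR 2 1).sub (hR 1 2)
  have q1 := (hR 0 2).sub (hR 2 0)
  have p0 := h.tr2 0
  have p1 := h.tr2 1
  have p2 := h.tr2 2
  simp [Kz, Kx, ez, ex, ey, Matrix.mul_apply, Fin.sum_univ_three, n10, n21, n20, hq] at q2 q0 q1 p0 p1 p2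
  have ht0 := h.g.t0
  have hsp : D E ((p : ℚ) * s) := (D.int p).mul0 hs
  have k0 := (q0.mul p0).mono (by omega : 4 * E ≤ 3 * E + 2 * E)
  have k2 := (q2.mul p2).mono (by omega : 4 * E ≤ 3 * E + 2 * E)
  have k1 := (q1.mul p1).mono (by omega : 4 * E ≤ 3 * E + 2 * E)
  have k3 := (q1.mul hsp).mono (by omega : 4 * E ≤ 3 * E + E)
  have k4 := ((hs.mul hsp).mul p1).mono (by omega : 4 * E ≤ E + E + 2 * E)
  have tot := (((((k0.add k2).add k1).add k3).add k3).add k4).add k4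
  have e : s ^ 3 * (2 * p) ^ 2 = s ^ 3 * (2 * p) ^ 2 -
    ((L 2 1 - L 1 2) * t 0 + (L 0 2 - L 2 0) * t 1 + (L 1 0 - L 0 1) * t 2) := by rw [pair]; ring
  rw [e]
  have e' := tot.neg
  ring_nf at e' ⊢
  exact e'

end Pool.Agent.H721.Q3
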