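import Mathlib

namespace Pool.Agent.H721.Q3

/-- the numbers: `C / Q` and `S / Q` are the cosine and the sine of the rotation angle -/
theorem nums (j : ℕ) : ∃ (K : ℕ) (C S u : ℤ), 0 < K ∧ C ^ 2 + S ^ 2 = (5 ^ K) ^ 2 ∧ C % 5 = 3 ∧ S % 5 = 4 ∧
    S = 3 ^ (j + 1) * u ∧ ¬ ((3 : ℤ) ∣ u) ∧ C % 3 = 1 ∧ (5 : ℤ) ^ K % 3 = 1 := by
  induction j with
  | zero =>
    refine ⟨4, -527, -336, -112, by norm_num, by norm_num, by norm_num, by norm_num, by norm_num, by norm_num,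
      by norm_num, by norm_num⟩
  | succ j ih =>
    obtain ⟨K, C, S, u, hK, h1, h2, h3, h4, h5, h6, h7⟩ := ih
    set Q : ℤ := 5 ^ K with hQ
    have hQ5 : (5 : ℤ) ∣ Q := by rw [hQ]; exact dvd_pow_self _ hK.ne'
    have hQ5' : Q % 5 = 0 := Int.emod_eq_zero_of_dvd hQ5
    refine ⟨3 * K, 4 * C ^ 3 - 3 * C * Q ^ 2, S * (3 * Q ^ 2 - 4 * S ^ 2),
      u * (Q ^ 2 - 4 * 3 ^ (2 * j + 1) * u ^ 2), by omega, ?_, ?_, ?_, ?_, ?_, ?_, ?_⟩
    · have : (5 : ℤ) ^ (3 * K) = Q ^ 3 := by rw [hQ, ← pow_mul, mul_comm]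
      rw [this]
      have hS2 : S ^ 2 = Q ^ 2 - C ^ 2 := by linarith
      have e : (S * (3 * Q ^ 2 - 4 * S ^ 2)) ^ 2 = S ^ 2 * (3 * Q ^ 2 - 4 * S ^ 2) ^ 2 := by ring
      rw [e, hS2]; ring
    · have hc : C ≡ 3 [ZMOD 5] := h2
      have hq : Q ≡ 0 [ZMOD 5] := hQ5'
      have := ((hc.pow 3).mul_left 4).sub ((hc.mul_left 3).mul (hq.pow 2))
      have e : (4 * 3 ^ 3 - 3 * 3 * 0 ^ 2 : ℤ) ≡ 3 [ZMOD 5] := by decide
      exact this.trans e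
    · have hs : S ≡ 4 [ZMOD 5] := h3
      have hq : Q ≡ 0 [ZMOD 5] := hQ5'
      have := hs.mul (((hq.pow 2).mul_left 3).sub ((hs.pow 2).mul_left 4))
      have e : (4 * (3 * 0 ^ 2 - 4 * 4 ^ 2) : ℤ) ≡ 4 [ZMOD 5] := by decide
      exact this.trans e
    · rw [h4]; ring
    · intro h
      rcases Int.prime_three.dvd_or_dvd h with h | h
      · exact h5 h
      · have hq : Q ≡ 1 [ZMOD 3] := h7
        have h30 : (4 * 3 ^ (2 * j + 1) * u ^ 2 : ℤ) ≡ 0 [ZMOD 3] := by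
          apply (Int.modEq_zero_iff_dvd).2
          exact Dvd.dvd.mul_right (Dvd.dvd.mul_left (dvd_pow_self _ (by omega)) _) _
        have h31 := (hq.pow 2).sub h30
        have h32 := (Int.modEq_zero_iff_dvd).2 h
        have h33 := h31.symm.trans h32
        revert h33; decide
    · have hc : C ≡ 1 [ZMOD 3] := h6
      have h3' : (3 * C * Q ^ 2 : ℤ) ≡ 0 [ZMOD 3] := by
        apply (Int.modEq_zero_iff_dvd).2
        exact ⟨C * Q ^ 2, by ring⟩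
      have := ((hc.pow 3).mul_left 4).sub h3'
      have e : (4 * 1 ^ 3 - 0 : ℤ) ≡ 1 [ZMOD 3] := by decide
      exact this.trans e
    · have : (5 : ℤ) ^ (3 * K) = Q ^ 3 := by rw [hQ, ← pow_mul, mul_comm]
      rw [this]
      have hq : Q ≡ 1 [ZMOD 3] := h7
      have e : (1 ^ 3 : ℤ) ≡ 1 [ZMOD 3] := by decide
      exact (hq.pow 3).trans e

/-- divisibility by `3 ^ e` in the ring of rationals with denominator prime to 3 -/
def D (e : ℕ) (x : ℚ) : Prop := ∃ m d : ℤ, ¬ (3 : ℤ) ∣ d ∧ x * d = 3 ^ e * m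

theorem nd_mul {a b : ℤ} (ha : ¬ (3 : ℤ) ∣ a) (hb : ¬ (3 : ℤ) ∣ b) : ¬ (3 : ℤ) ∣ a * b := fun h =>
  (Int.prime_three.dvd_or_dvd h).elim ha hb

theorem D.add {e : ℕ} {x y : ℚ} (hx : D e x) (hy : D e y) : D e (x + y) := by
  obtain ⟨m, d, hd, h⟩ := hx
  obtain ⟨m', d', hd', h'⟩ := hy
  refine ⟨m * d' + m' * d, d * d', nd_mul hd hd', ?_⟩
  push_cast
  linear_combination (d' : ℚ) * h + (d : ℚ) * h'

theorem D.mul {e f : ℕ} {x y : ℚ} (hx : D e x) (hy : D f y) : D (e + f) (x * y) := by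
  obtain ⟨m, d, hd, h⟩ := hx
  obtain ⟨m', d', hd', h'⟩ := hy
  refine ⟨m * m', d * d', nd_mul hd hd', ?_⟩
  have : x * y * ((d * d' : ℤ) : ℚ) = (x * d) * (y * d') := by push_cast; ring
  rw [this, h, h']; push_cast; ring

theorem D.neg {e : ℕ} {x : ℚ} (hx : D e x) : D e (-x) := by
  obtain ⟨m, d, hd, h⟩ := hx
  refine ⟨-m, d, hd, ?_⟩
  push_cast; linear_combination -h

theorem D.sub {e : ℕ} {x y : ℚ} (hx : D e x) (hy : D e y) : D e (x - y) := by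
  rw [sub_eq_add_neg]; exact hx.add hy.neg

theorem D.mono {e f : ℕ} {x : ℚ} (hef : e ≤ f) (hx : D f x) : D e x := by
  obtain ⟨m, d, hd, h⟩ := hx
  refine ⟨3 ^ (f - e) * m, d, hd, ?_⟩
  rw [h]; push_cast
  rw [← mul_assoc, ← pow_add, Nat.add_sub_cancel' hef]

theorem D.int (n : ℤ) : D 0 (n : ℚ) := ⟨n, 1, by norm_num, by simp⟩

theorem D.zero (e : ℕ) : D e 0 := ⟨0, 1, by norm_num, by simp⟩

theorem D.mul0 {e : ℕ} {x y : ℚ} (hx : D 0 x) (hy : D e y) : D e (x * y) := by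
  have := hx.mul hy
  rwa [zero_add] at this

theorem descent (n : ℕ) : ∀ a b : ℤ, (3 : ℤ) ^ (2 * n) ∣ a ^ 2 + b ^ 2 → (3 : ℤ) ^ n ∣ a ∧ (3 : ℤ) ^ n ∣ b := by
  induction n with
  | zero => intro a b _; simp
  | succ n ih =>
    intro a b h
    have h3 : (3 : ℤ) ∣ a ^ 2 + b ^ 2 := (dvd_pow_self _ (by omega)).trans h
    have h4 : a ^ 2 + b ^ 2 ≡ 0 [ZMOD 3] := (Int.modEq_zero_iff_dvd).2 h3
    have ha : (3 : ℤ) ∣ a ∧ (3 : ℤ) ∣ b := by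
      have h5 : (a % 3) ^ 2 + (b % 3) ^ 2 ≡ 0 [ZMOD 3] :=
        (((Int.mod_modEq a 3).pow 2).add ((Int.mod_modEq b 3).pow 2)).trans h4
      have h6 : a % 3 = 0 ∨ a % 3 = 1 ∨ a % 3 = 2 := by omega
      have h7 : b % 3 = 0 ∨ b % 3 = 1 ∨ b % 3 = 2 := by omega
      rcases h6 with h6 | h6 | h6 <;> rcases h7 with h7 | h7 | h7 <;> rw [h6, h7] at h5 <;>
        first
          | exact ⟨Int.dvd_of_emod_eq_zero h6, Int.dvd_of_emod_eq_zero h7⟩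
          | (exfalso; revert h5; decide)
    obtain ⟨⟨a', rfl⟩, ⟨b', rfl⟩⟩ := ha
    have h8 : (3 : ℤ) ^ (2 * n) ∣ a' ^ 2 + b' ^ 2 := by
      have e : (3 * a') ^ 2 + (3 * b') ^ 2 = 3 ^ 2 * (a' ^ 2 + b' ^ 2) := by ring
      have e2 : (3 : ℤ) ^ (2 * (n + 1)) = 3 ^ 2 * 3 ^ (2 * n) := by ring
      rw [e, e2] at h
      exact (mul_dvd_mul_iff_left (by norm_num)).1 h
    obtain ⟨h9, h10⟩ := ih a' b' h8
    exact ⟨by rw [pow_succ, mul_comm]; exact mul_dvd_mul_left 3 h9,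
      by rw [pow_succ, mul_comm]; exact mul_dvd_mul_left 3 h10⟩

/-- the final number theoretic step -/
theorem final {n : ℕ} {u Q a b : ℤ} (hu : ¬ (3 : ℤ) ∣ u) (hQ : Q ≠ 0)
    (h : D (2 * (2 * n + 1)) (2 * (3 ^ (2 * n + 1) * u / Q : ℚ) * (a ^ 2 + b ^ 2))) :
    (3 : ℤ) ^ n ∣ a ∧ (3 : ℤ) ^ n ∣ b := by
  obtain ⟨m, d, hd, h⟩ := h
  apply descent
  have hQ' : (Q : ℚ) ≠ 0 := by exact_mod_cast hQ
  have h1 : (2 * u * d * (a ^ 2 + b ^ 2) : ℚ) = 3 ^ (2 * n + 1) * m * Q := by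
    have h3 : (3 : ℚ) ^ (2 * n + 1) ≠ 0 := by positivity
    apply mul_left_cancel₀ h3
    field_simp at h
    rw [show (2 * (2 * n + 1)) = (2 * n + 1) + (2 * n + 1) by ring, pow_add] at h
    linear_combination h
  have h2 : (2 * u * d * (a ^ 2 + b ^ 2) : ℤ) = 3 ^ (2 * n + 1) * m * Q := by exact_mod_cast h1
  have h3 : (3 : ℤ) ^ (2 * n + 1) ∣ (2 * u * d) * (a ^ 2 + b ^ 2) := ⟨m * Q, by rw [h2]; ring⟩
  have h4 : IsCoprime ((3 : ℤ) ^ (2 * n + 1)) (2 * u * d) := by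
    apply IsCoprime.pow_left
    rw [Prime.coprime_iff_not_dvd Int.prime_three]
    exact nd_mul (nd_mul (by norm_num) hu) hd
  exact (pow_dvd_pow 3 (by omega)).trans (h4.dvd_of_dvd_mul_left h3)

end Pool.Agent.H721.Q3
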