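import Mathlib

namespace Pool.Agent.H721.Q3

open Matrix

/-- integer matrices of the four letters -/
def P (C S Q : ℤ) : Fin 2 × Bool → Matrix (Fin 3) (Fin 3) ℤ
  | (0, true) => !![C, -S, 0; S, C, 0; 0, 0, Q]
  | (0, false) => !![C, S, 0; -S, C, 0; 0, 0, Q]
  | (1, true) => !![Q, 0, 0; 0, C, -S; 0, S, C]
  | (1, false) => !![Q, 0, 0; 0, C, S; 0, -S, C]

/-- the same matrices modulo 5 -/
def M5 : Fin 2 × Bool → Matrix (Fin 3) (Fin 3) (ZMod 5)
  | (0, true) => !![3, 1, 0; 4, 3, 0; 0, 0, 0]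
  | (0, false) => !![3, 4, 0; 1, 3, 0; 0, 0, 0]
  | (1, true) => !![0, 0, 0; 0, 3, 1; 0, 4, 3]
  | (1, false) => !![0, 0, 0; 0, 3, 4; 0, 1, 3]

def cv : Fin 2 × Bool → Fin 3 → ZMod 5
  | (0, true) => ![3, 4, 0]
  | (0, false) => ![3, 1, 0]
  | (1, true) => ![0, 3, 4]
  | (1, false) => ![0, 3, 1]

theorem cast_P {C S Q : ℤ} (hC : C % 5 = 3) (hS : S % 5 = 4) (hQ : Q % 5 = 0) (x : Fin 2 × Bool) :
    (Int.castRingHom (ZMod 5)).mapMatrix (P C S Q x) = M5 x := by
  have h1 : ((C : ℤ) : ZMod 5) = 3 := by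
    have : C ≡ 3 [ZMOD 5] := hC
    exact (ZMod.intCast_eq_intCast_iff C 3 5).2 this
  have h2 : ((S : ℤ) : ZMod 5) = 4 := by
    have : S ≡ 4 [ZMOD 5] := hS
    exact (ZMod.intCast_eq_intCast_iff S 4 5).2 this
  have h3 : ((Q : ℤ) : ZMod 5) = 0 := by
    have : Q ≡ 0 [ZMOD 5] := hQ
    have := (ZMod.intCast_eq_intCast_iff Q 0 5).2 this
    simpa using this
  have h4 : (-4 : ZMod 5) = 1 := by decide
  obtain ⟨i, b⟩ := x
  fin_cases i <;> cases b <;> ext r c <;> fin_cases r <;> fin_cases c <;>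
    simp [P, M5, h1, h2, h3, h4]

theorem step5 : ∀ x y : Fin 2 × Bool, (x.1 = y.1 → x.2 = y.2) →
    ∃ s : ZMod 5, s ≠ 0 ∧ M5 x *ᵥ cv y = s • cv x := by
  decide

theorem base5 : ∀ x : Fin 2 × Bool, ∃ s : ZMod 5, s ≠ 0 ∧ M5 x *ᵥ ![1, 0, 1] = s • cv x := by
  decide

theorem cv_ne : ∀ (s : ZMod 5) (x : Fin 2 × Bool), s ≠ 0 → s • cv x ≠ 0 := by
  decide

theorem smul_ne5 : ∀ s t : ZMod 5, s ≠ 0 → t ≠ 0 → s * t ≠ 0 := by decide

theorem word5 (L : List (Fin 2 × Bool)) : ∀ x, List.IsChain (fun a b : Fin 2 × Bool => a.1 = b.1 → a.2 = b.2) (x :: L) →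
    ∃ s : ZMod 5, s ≠ 0 ∧ ((x :: L).map M5).prod *ᵥ ![1, 0, 1] = s • cv x := by
  induction L with
  | nil =>
    intro x _
    simpa using base5 x
  | cons y L ih =>
    intro x h
    rw [List.isChain_cons_cons] at h
    obtain ⟨s, hs, e⟩ := ih y h.2
    obtain ⟨t, ht, e'⟩ := step5 x y h.1
    refine ⟨s * t, smul_ne5 s t hs ht, ?_⟩
    rw [List.map_cons, List.prod_cons, ← mulVec_mulVec, e, mulVec_smul, e', smul_smul]

/-- no nonempty reduced word in the letters is the identity, if `Q • G x` is the integer matrix `P x` -/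
theorem word_ne {C S Q : ℤ} (hC : C % 5 = 3) (hS : S % 5 = 4) (hQ : Q % 5 = 0)
    (G : Fin 2 × Bool → Matrix (Fin 3) (Fin 3) ℚ)
    (hG : ∀ x, (Q : ℚ) • G x = (Int.castRingHom ℚ).mapMatrix (P C S Q x))
    (L : List (Fin 2 × Bool)) (hL : FreeGroup.IsReduced L) (hne : L ≠ []) : (L.map G).prod ≠ 1 := by
  intro h1
  have key : ∀ L : List (Fin 2 × Bool), (Q : ℚ) ^ L.length • (L.map G).prod =
      (Int.castRingHom ℚ).mapMatrix ((L.map (P C S Q)).prod) := by
    intro L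
    induction L with
    | nil => simp
    | cons x L ih =>
      rw [List.map_cons, List.prod_cons, List.map_cons, List.prod_cons, map_mul, ← ih, ← hG x,
        List.length_cons, pow_succ, smul_mul_assoc, mul_smul_comm, smul_smul, mul_comm]
  have h2 := key L
  rw [h1] at h2
  have h3 : (L.map (P C S Q)).prod = Q ^ L.length • (1 : Matrix (Fin 3) (Fin 3) ℤ) := by
    ext i j
    have h4 := congrFun (congrFun h2 i) j
    have h5 : (((L.map (P C S Q)).prod i j : ℤ) : ℚ) = (((Q ^ L.length • (1 : Matrix (Fin 3) (Fin 3) ℤ)) i j : ℤ) : ℚ) := by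
      rw [RingHom.mapMatrix_apply, map_apply] at h4
      simp only [eq_intCast] at h4
      rw [← h4]
      by_cases hij : i = j
      · subst hij; simp
      · simp [hij]
    exact_mod_cast h5
  have h6 : (L.map M5).prod = 0 := by
    have h7 : (L.map M5).prod = (Int.castRingHom (ZMod 5)).mapMatrix ((L.map (P C S Q)).prod) := by
      rw [map_list_prod, List.map_map]
      congr 1
      apply List.map_congr_left
      intro x _
      exact (cast_P hC hS hQ x).symm
    rw [h7, h3]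
    have h8 : ((Q : ℤ) : ZMod 5) = 0 := by
      have : Q ≡ 0 [ZMOD 5] := hQ
      have := (ZMod.intCast_eq_intCast_iff Q 0 5).2 this
      simpa using this
    have h9 : L.length ≠ 0 := by
      intro h; exact hne (List.length_eq_zero_iff.1 h)
    ext i j
    rw [RingHom.mapMatrix_apply, map_apply, Matrix.smul_apply, smul_eq_mul, map_mul, map_pow, eq_intCast, h8,
      zero_pow h9, zero_mul]
    rfl
  cases L with
  | nil => exact hne rfl
  | cons x L =>
    obtain ⟨s, hs, e⟩ := word5 L x hL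
    rw [h6, zero_mulVec] at e
    exact cv_ne s x hs e.symm

end Pool.Agent.H721.Q3
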